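import Pool.Agent.H992.SF.Defs

/-!
# Near invariance in a fixed frame for products (project SF of helper992, by helper115)
-/

set_option autoImplicit false
open MeasureTheory Filter Topology Complex ProbabilityTheory
open scoped ContDiff ENNReal

namespace Pool.Agent.H115.SF

open Pool.Agent.W745.RW (TF)
open Pool.Agent.Y265.RW (int_mul int_mulr)
open Pool.Agent.N661.BH (HP mv)
open Pool.Agent.N814.BHM
open Pool.Agent.N814.BHASM
open Pool.Agent.N40.BRSTATH
open Pool.Agent.H992.SF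

lemma prod_sub {ι : Type} [DecidableEq ι] (S : Finset ι) (a b : ι → ℂ) (ha : ∀ i, ‖a i‖ = 1)
    (hb : ∀ i, ‖b i‖ = 1) : ‖∏ i ∈ S, a i - ∏ i ∈ S, b i‖ ≤ ∑ i ∈ S, ‖a i - b i‖ := by
  induction S using Finset.induction_on with
  | empty => simp
  | insert i S hi ih =>
    rw [Finset.prod_insert hi, Finset.prod_insert hi, Finset.sum_insert hi]
    have h1 : a i * ∏ j ∈ S, a j - b i * ∏ j ∈ S, b j =
        (a i - b i) * ∏ j ∈ S, a j + b i * (∏ j ∈ S, a j - ∏ j ∈ S, b j) := by ring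
    rw [h1]
    refine (norm_add_le _ _).trans ?_
    rw [norm_mul, norm_mul, norm_prod, Finset.prod_congr rfl (fun j _ => ha j),
      Finset.prod_const_one, mul_one, hb i, one_mul]
    linarith

/-- the same phase at two points -/
lemma Fy_sub' (h : ℝ) (u : ℂ → ℝ) {k : ℕ} (t : Fin k → ℝ) (y : Fin k → ℂ) (w z : ℂ) :
    ‖Fy h u t y w - Fy h u t y z‖ ≤ ∑ j, |t j| * |u (mv h (y j) w) - u (mv h (y j) z)| := by
  unfold Fy
  refine (Pool.Agent.N40.BRSTATH.exp_sub _ _).trans ?_
  rw [← Finset.sum_sub_distrib]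
  refine (Finset.abs_sum_le_sum_abs _ _).trans (le_of_eq ?_)
  refine Finset.sum_congr rfl fun j _ => ?_
  rw [← mul_sub, abs_mul]

theorem claim2 (h : S_SLOW) : S_CLAIM := by
  classical
  intro d Ω lam u H i₀ S hS ψ hψ h0 k' s y' x k t y
  have H0 := H i₀
  have hψ2 : TF HP ψ := ⟨hψ.1, hψ.2.1, hψ.2.2.trans H0.sub⟩
  have hh := H0.sys.hlim
  obtain ⟨σ, hσ⟩ : ∃ σ : ℕ → ℝ, σ = fun n => (1 + 1 / √(lam i₀ n) * x.im)⁻¹ := ⟨_, rfl⟩
  have hσlim : Tendsto σ atTop (𝓝 1) := by
    have h1 : Tendsto (fun n => 1 + 1 / √(lam i₀ n) * x.im) atTop (𝓝 1) := by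
      have h2 := (hh.mul_const x.im).const_add 1
      simpa using h2
    have h3 := h1.inv₀ one_ne_zero
    rw [inv_one] at h3
    rw [hσ]
    exact h3
  have hσ2 : ∀ᶠ n in atTop, |σ n| ≤ 2 := by
    have h1 := (hσlim.abs).eventually (gt_mem_nhds (show |(1:ℝ)| < 2 by norm_num))
    exact h1.mono fun n hn => hn.le
  have hlimA := A1 hψ.1.continuous hψ.2.1 x hh
  have hlimB : Tendsto (fun n => ∑ j, |s j| * ∫ z, ψ z *
      |u i₀ n (mv (1 / √(lam i₀ n)) ((σ n : ℂ) * y' j) z) -
        u i₀ n (mv (1 / √(lam i₀ n)) (y' j) z)|) atTop (𝓝 0) := by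
    have h1 := tendsto_finsetSum (Finset.univ : Finset (Fin k')) fun j _ =>
      (A2 H0 hψ h0 (y' j) hσlim).const_mul |s j|
    simpa using h1
  have hlimC : Tendsto (fun n => ∑ i ∈ S, ∑ j, |t i j| * ∫ z, ψ z *
      |u i n (mv (1 / √(lam i n)) (y i j) (mv (1 / √(lam i₀ n)) x z)) -
        u i n (mv (1 / √(lam i n)) (y i j) z)|) atTop (𝓝 0) := by
    have h1 : ∀ i ∈ S, Tendsto (fun n => ∑ j, |t i j| * ∫ z, ψ z *
      |u i n (mv (1 / √(lam i n)) (y i j) (mv (1 / √(lam i₀ n)) x z)) -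
        u i n (mv (1 / √(lam i n)) (y i j) z)|) atTop (𝓝 0) := by
      intro i hi
      have h2 := tendsto_finsetSum (Finset.univ : Finset (Fin k)) fun j _ =>
        (h Ω (lam i) (u i) (H i) (lam i₀) H0.pos (hS i hi) ψ hψ h0 x (y i j)).const_mul |t i j|
      simpa using h2
    have h2 := tendsto_finsetSum S h1
    simpa using h2
  have hlim := (hlimA.add hlimC).add hlimB
  rw [add_zero, add_zero] at hlim
  rw [tendsto_zero_iff_norm_tendsto_zero]
  refine squeeze_zero' (Eventually.of_forall fun n => norm_nonneg _) ?_ hlim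
  filter_upwards [hσ2, small H0 x, eventually_all.2 fun j => small H0 (y' j),
    eventually_all.2 fun j => small H0 (2 * y' j),
    eventually_all.2 fun i => eventually_all.2 fun j => small (H i) (y i j)]
    with n h1 h2 h3 h5 h6
  have hp : (0:ℝ) ≤ 1 / √(lam i₀ n) := by positivity
  have hpi : ∀ i, (0:ℝ) ≤ 1 / √(lam i n) := fun i => by positivity
  have d0 := pos_of_small hp h2
  have d1 : ∀ j, 0 < 1 + 1 / √(lam i₀ n) * ((σ n : ℂ) * y' j).im := by
    intro j
    apply pos_of_small hp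
    refine lt_of_le_of_lt ?_ (h5 j)
    apply mul_le_mul_of_nonneg_left _ hp
    rw [norm_mul, norm_mul, Complex.norm_real, Real.norm_eq_abs, Complex.norm_ofNat]
    exact mul_le_mul_of_nonneg_right h1 (norm_nonneg _)
  have d2 : ∀ i j, 0 < 1 + 1 / √(lam i n) * (y i j).im := fun i j =>
    pos_of_small (hpi i) (h6 i j)
  have d3 : ∀ j, 0 < 1 + 1 / √(lam i₀ n) * (y' j).im := fun j => pos_of_small hp (h3 j)
  -- the functions
  obtain ⟨T, hT⟩ : ∃ T : ℂ → ℂ, T = mv (1 / √(lam i₀ n)) x := ⟨_, rfl⟩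
  obtain ⟨A, hA⟩ : ∃ A : ℂ → ℂ, A = Fy (1 / √(lam i₀ n)) (u i₀ n) s
    (fun j => (σ n : ℂ) * y' j) := ⟨_, rfl⟩
  obtain ⟨B, hB⟩ : ∃ B : ℂ → ℂ, B = Fy (1 / √(lam i₀ n)) (u i₀ n) s y' := ⟨_, rfl⟩
  obtain ⟨G, hG⟩ : ∃ G : ℂ → ℂ, G = fun z => ∏ i ∈ S, Fy (1 / √(lam i n)) (u i n) (t i) (y i) z :=
    ⟨_, rfl⟩
  have hTc : ContinuousOn T HP := by
    rw [hT]
    exact (mvc _ _).continuousOn
  have hTm : Set.MapsTo T HP HP := by
    intro z hz
    rw [hT]
    exact (mem_HP_iff d0 z).2 hz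
  have cA : ContinuousOn A HP := by
    rw [hA]
    exact Fy_cont ((H i₀).sm n) s d1
  have cB : ContinuousOn B HP := by
    rw [hB]
    exact Fy_cont ((H i₀).sm n) s d3
  have cG : ContinuousOn G HP := by
    rw [hG]
    exact continuousOn_finsetProd _ fun i _ => Fy_cont ((H i).sm n) (t i) (d2 i)
  have nA : ∀ z, ‖A z‖ = 1 := fun z => by rw [hA]; exact Fy_norm _ _ _ _ _
  have nG : ∀ z, ‖G z‖ = 1 := fun z => by
    rw [hG]
    simp only [norm_prod]
    exact Finset.prod_eq_one fun i _ => Fy_norm _ _ _ _ _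
  have e1 : ∀ z, Fy (1 / √(lam i₀ n)) (u i₀ n) s (fun j => y' j + x) z = A (T z) := by
    intro z
    rw [Fy_comp d0, hA, hT, hσ]
  have hgoal : ∫ z, (ψ z : ℂ) * ((Fy (1 / √(lam i₀ n)) (u i₀ n) s (fun j => y' j + x) z -
      Fy (1 / √(lam i₀ n)) (u i₀ n) s y' z) *
      ∏ i ∈ S, Fy (1 / √(lam i n)) (u i n) (t i) (y i) z) =
      ∫ z, (ψ z : ℂ) * ((A (T z) - B z) * G z) := by
    refine integral_congr_ae (Eventually.of_forall fun z => ?_)
    simp only
    rw [e1, hB, hG]
  have cAT : ContinuousOn (fun z => A (T z)) HP := cA.comp hTc hTm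
  have cGT : ContinuousOn (fun z => G (T z)) HP := cG.comp hTc hTm
  have i1 : Integrable fun z => (ψ z : ℂ) * (A (T z) * G (T z)) :=
    int_mul HP_open hψ2 (cAT.mul cGT)
  have i2 : Integrable fun z => (ψ z : ℂ) * (A z * G z) := int_mul HP_open hψ2 (cA.mul cG)
  have i3 : Integrable fun z => (ψ z : ℂ) * (A (T z) * (G z - G (T z))) :=
    int_mul HP_open hψ2 (cAT.mul (cG.sub cGT))
  have i4 : Integrable fun z => (ψ z : ℂ) * ((A z - B z) * G z) :=
    int_mul HP_open hψ2 ((cA.sub cB).mul cG)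
  have hsplit : ∫ z, (ψ z : ℂ) * ((A (T z) - B z) * G z) =
      (((∫ z, (ψ z : ℂ) * (A (T z) * G (T z))) - ∫ z, (ψ z : ℂ) * (A z * G z)) +
        ∫ z, (ψ z : ℂ) * (A (T z) * (G z - G (T z)))) +
        ∫ z, (ψ z : ℂ) * ((A z - B z) * G z) := by
    have i12 : Integrable fun z => (ψ z : ℂ) * (A (T z) * G (T z)) - (ψ z : ℂ) * (A z * G z) :=
      i1.sub i2
    have i123 : Integrable fun z => ((ψ z : ℂ) * (A (T z) * G (T z)) -
        (ψ z : ℂ) * (A z * G z)) + (ψ z : ℂ) * (A (T z) * (G z - G (T z))) := i12.add i3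
    rw [← integral_sub i1 i2, ← integral_add i12 i3, ← integral_add i123 i4]
    refine integral_congr_ae (Eventually.of_forall fun z => ?_)
    show (ψ z : ℂ) * ((A (T z) - B z) * G z) = _
    ring
  rw [hgoal, hsplit]
  refine (norm_add_le _ _).trans (add_le_add ((norm_add_le _ _).trans (add_le_add ?_ ?_)) ?_)
  · have h7 := tf_cv d0 hψ.1.continuous hψ.2.1 hψ2.2.2 (F := fun z => A z * G z) (cA.mul cG)
      (fun z => by rw [norm_mul, nA, nG, one_mul])
    rw [hT]
    exact h7
  · have j1 : ∀ i j, Integrable (fun z => ψ z *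
        |u i n (mv (1 / √(lam i n)) (y i j) (mv (1 / √(lam i₀ n)) x z)) -
        u i n (mv (1 / √(lam i n)) (y i j) z)|) := by
      intro i j
      apply int_mulr HP_open hψ2
      have c1 : ContinuousOn (fun z => u i n (mv (1 / √(lam i n)) (y i j) z)) HP :=
        ((H i).sm n).continuousOn.comp (mvc _ _).continuousOn
          fun z hz => (mem_HP_iff (d2 i j) z).2 hz
      rw [hT] at hTc hTm
      exact ((c1.comp hTc hTm).sub c1).abs
    calc ‖∫ z, (ψ z : ℂ) * (A (T z) * (G z - G (T z)))‖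
        ≤ ∫ z, ∑ i ∈ S, ∑ j, |t i j| * (ψ z *
          |u i n (mv (1 / √(lam i n)) (y i j) (mv (1 / √(lam i₀ n)) x z)) -
            u i n (mv (1 / √(lam i n)) (y i j) z)|) := by
          refine norm_integral_le_of_norm_le
            (integrable_finsetSum _ fun i _ => integrable_finsetSum _ fun j _ =>
              (j1 i j).const_mul _) (Eventually.of_forall fun z => ?_)
          rw [norm_mul, norm_mul, nA, one_mul, Complex.norm_real, Real.norm_eq_abs,
            abs_of_nonneg (h0 z)]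
          have h7 : ‖G z - G (T z)‖ ≤ ∑ i ∈ S, ∑ j, |t i j| *
              |u i n (mv (1 / √(lam i n)) (y i j) (mv (1 / √(lam i₀ n)) x z)) -
              u i n (mv (1 / √(lam i n)) (y i j) z)| := by
            rw [norm_sub_rev, hG]
            refine (prod_sub S (fun i => Fy (1 / √(lam i n)) (u i n) (t i) (y i) (T z))
              (fun i => Fy (1 / √(lam i n)) (u i n) (t i) (y i) z)
              (fun i => Fy_norm _ _ _ _ _) (fun i => Fy_norm _ _ _ _ _)).trans ?_
            refine Finset.sum_le_sum fun i _ => ?_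
            rw [hT]
            exact Fy_sub' _ _ _ _ _ _
          refine (mul_le_mul_of_nonneg_left h7 (h0 z)).trans (le_of_eq ?_)
          rw [Finset.mul_sum]
          refine Finset.sum_congr rfl fun i _ => ?_
          rw [Finset.mul_sum]
          refine Finset.sum_congr rfl fun j _ => ?_
          ring
      _ = ∑ i ∈ S, ∑ j, |t i j| * ∫ z, ψ z *
          |u i n (mv (1 / √(lam i n)) (y i j) (mv (1 / √(lam i₀ n)) x z)) -
            u i n (mv (1 / √(lam i n)) (y i j) z)| := by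
          rw [integral_finsetSum _ fun i _ => integrable_finsetSum _ fun j _ =>
              (j1 i j).const_mul _]
          refine Finset.sum_congr rfl fun i _ => ?_
          rw [integral_finsetSum _ fun j _ => (j1 i j).const_mul _]
          exact Finset.sum_congr rfl fun j _ => integral_const_mul _ _
  · have j3 : ∀ j, Integrable (fun z => ψ z *
        |u i₀ n (mv (1 / √(lam i₀ n)) ((σ n : ℂ) * y' j) z) -
          u i₀ n (mv (1 / √(lam i₀ n)) (y' j) z)|) := by
      intro j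
      apply int_mulr HP_open hψ2
      exact ((((H i₀).sm n).continuousOn.comp (mvc _ _).continuousOn
        fun z hz => (mem_HP_iff (d1 j) z).2 hz).sub
      (((H i₀).sm n).continuousOn.comp (mvc _ _).continuousOn
        fun z hz => (mem_HP_iff (d3 j) z).2 hz)).abs
    calc ‖∫ z, (ψ z : ℂ) * ((A z - B z) * G z)‖
        ≤ ∫ z, ∑ j, |s j| * (ψ z *
          |u i₀ n (mv (1 / √(lam i₀ n)) ((σ n : ℂ) * y' j) z) -
            u i₀ n (mv (1 / √(lam i₀ n)) (y' j) z)|) := by
          refine norm_integral_le_of_norm_le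
            (integrable_finsetSum _ fun j _ => (j3 j).const_mul _)
            (Eventually.of_forall fun z => ?_)
          rw [norm_mul, norm_mul, nG, mul_one, Complex.norm_real, Real.norm_eq_abs,
            abs_of_nonneg (h0 z), hA, hB]
          refine (mul_le_mul_of_nonneg_left (Fy_sub _ _ _ _ _ _) (h0 z)).trans (le_of_eq ?_)
          rw [Finset.mul_sum]
          refine Finset.sum_congr rfl fun j _ => ?_
          ring
      _ = ∑ j, |s j| * ∫ z, ψ z *
          |u i₀ n (mv (1 / √(lam i₀ n)) ((σ n : ℂ) * y' j) z) -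
            u i₀ n (mv (1 / √(lam i₀ n)) (y' j) z)| := by
          rw [integral_finsetSum _ fun j _ => (j3 j).const_mul _]
          exact Finset.sum_congr rfl fun j _ => integral_const_mul _ _

end Pool.Agent.H115.SF
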